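import Pool.Agent.Lib.MP_94aef8_gt.Main

/-!
A closed smooth 4-manifold whose moduli space of Einstein metrics has infinitely many connected
components.
-/

open scoped Manifold ContDiff
open Pool.Agent.Lib.MP_94aef8_gt

namespace Pool.Agent.Results.MP_94aef8_gt.InfComponents

theorem result : ∃ (M : Type) (_ : TopologicalSpace M) (_ : T2Space M) (_ : CompactSpace M)
    (_ : ConnectedSpace M) (_ : ChartedSpace E4 M) (_ : IsManifold 𝓘(ℝ, E4) ∞ M)
    (_ : MeasurableSpace M) (_ : BorelSpace M), Infinite (ConnectedComponents (Moduli M)) := by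
  obtain ⟨M, a, b, c, d, e, f, g, h, -, k⟩ := main_E2
  exact ⟨M, a, b, c, d, e, f, g, h, k⟩

end Pool.Agent.Results.MP_94aef8_gt.InfComponents
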