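import Pool.Agent.Lib.MP_94aef8_gt.Main

/-!
A closed smooth 4-manifold on which the Einstein constants of the unit volume Einstein metrics
take infinitely many negative values.
-/

open scoped Manifold ContDiff
open Pool.Agent.Lib.MP_94aef8_gt

namespace Pool.Agent.Results.MP_94aef8_gt.InfConstants

theorem result : ∃ (M : Type) (_ : TopologicalSpace M) (_ : T2Space M) (_ : CompactSpace M)
    (_ : ConnectedSpace M) (_ : ChartedSpace E4 M) (_ : IsManifold 𝓘(ℝ, E4) ∞ M)
    (_ : MeasurableSpace M) (_ : BorelSpace M), {c ∈ constants M | c < 0}.Infinite := by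
  obtain ⟨Z, hZ⟩ := main_E1
  exact ⟨Z.M, Z.top, Z.t2, Z.cpt, Z.conn, Z.chart, Z.mfd, Z.meas, Z.borel, hZ⟩

end Pool.Agent.Results.MP_94aef8_gt.InfConstants
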